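import Pool.Agent.Q17.TP.Stm
import Pool.Agent.Y63.AWC.Deg

/-!
# Project TP (helper17), job PSP
-/

set_option autoImplicit false

namespace Pool.Agent.Q24.TP

open Pool.Agent.Q17.TP

/-- a representation on a line is irreducible -/
theorem irr_line (L : Type) [Group L] (ρ : Representation ℂ L ℂ) : ρ.IsIrreducible := by
  have hnt : Nontrivial (Subrepresentation ρ) := by
    refine ⟨⟨⊥, ⊤, fun h => ?_⟩⟩
    have h1 : (1 : ℂ) ∈ (⊤ : Subrepresentation ρ) := trivial
    rw [← h] at h1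
    exact one_ne_zero ((Submodule.mem_bot ℂ).1 h1)
  refine { hnt with eq_bot_or_eq_top := fun W => ?_ }
  by_cases h : ∃ w ∈ W, w ≠ 0
  · right
    obtain ⟨w, hw, hw0⟩ := h
    refine top_le_iff.1 fun x _ => ?_
    have h1 : x = (x / w) • w := by
      rw [smul_eq_mul, div_mul_cancel₀ _ hw0]
    rw [h1]
    exact W.toSubmodule.smul_mem _ hw
  · left
    push Not at h
    refine le_bot_iff.1 fun x hx => ?_
    have h1 := h x hx
    rw [h1]
    exact Submodule.zero_mem _

theorem t_PSP : S_PSP := by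
  intro p _ L _ _
  refine ⟨fun hL θ hθ => ?_, ?_⟩
  · obtain ⟨V, i1, i2, i3, ρ, hr, rfl⟩ := hθ
    obtain ⟨n, hn⟩ := IsPGroup.iff_card.1 hL
    refine ⟨V, i1, i2, i3, ρ, hr, rfl, ?_, n, fun x => ?_⟩
    · have h1 : Module.finrank ℂ V ∣ Nat.card L :=
        Pool.Agent.Y63.AWC.deg_dvd (chi := ρ.character) ⟨V, i1, i2, i3, ρ, hr, rfl⟩ ρ.char_one
      rw [hn] at h1
      obtain ⟨j, _, hj⟩ := (Nat.dvd_prime_pow (Fact.out : p.Prime)).1 h1
      exact ⟨j, hj⟩
    · rw [← map_pow, ← map_pow, ← hn, pow_card_eq_one', map_one, map_one]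
  · refine ⟨ℂ, inferInstance, inferInstance, inferInstance, Representation.trivial ℂ L ℂ,
      irr_line L _, ?_, ⟨0, ?_⟩, 0, fun x => ?_⟩
    · funext x
      unfold Representation.character
      simp
    · simp
    · simp [Representation.trivial]

end Pool.Agent.Q24.TP
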